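import Pool.Agent.H37.Pan.Close

/-!
The Hamilton compression of the pancake graph equals Landau's function.
-/

namespace Pool.Agent.Results.MP_2ae182_co.KappaLandau

open Pool.Agent.H37.Pan

theorem symm_le_landau {n : ℕ} (hn : 4 ≤ n) (x : ℕ → Equiv.Perm (Fin n))
    (hx : IsHamCycle (pancake n) x) (k : ℕ) (hk : IsSymm (pancake n) x k) : k ≤ landau n := by
  rcases Nat.lt_or_ge 4 n with h | h
  · exact symm_le h x hx k hk
  · obtain rfl : n = 4 := le_antisymm h hn
    rw [landau_four]
    exact kappa_four_upper x hx k hk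

theorem exists_landau {n : ℕ} (hn : 4 ≤ n) :
    ∃ x, IsHamCycle (pancake n) x ∧ IsSymm (pancake n) x (landau n) := by
  rcases Nat.lt_or_ge 4 n with h | h
  · obtain ⟨g, hg⟩ := landau_attained n
    rw [← hg]
    exact exists_cycle h g
  · obtain rfl : n = 4 := le_antisymm h hn
    rw [landau_four]
    exact kappa_four_lower

theorem kappaCycle_le {n : ℕ} (hn : 4 ≤ n) (x : ℕ → Equiv.Perm (Fin n))
    (hx : IsHamCycle (pancake n) x) : kappaCycle (pancake n) x ≤ landau n := by
  refine csSup_le ⟨1, one_dvd _, RelIso.refl _, ?_⟩ ?_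
  · intro i
    rw [Nat.div_one, hx.period i]
    rfl
  · intro k hk
    exact symm_le_landau hn x hx k hk

/-- For every `n ≥ 4` the Hamilton compression of the pancake graph is Landau's function of `n`;
so it exceeds `n` exactly for `n = 5` and `n ≥ 7`. -/
theorem result : ∀ n : ℕ, 4 ≤ n →
    kappa (pancake n) = landau n ∧ (n < kappa (pancake n) ↔ n = 5 ∨ 7 ≤ n) := by
  intro n hn
  have key : kappa (pancake n) = landau n := by
    obtain ⟨x, hx, hs⟩ := exists_landau hn
    have hx2 : kappaCycle (pancake n) x = landau n := by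
      refine le_antisymm (kappaCycle_le hn x hx) (le_csSup ⟨landau n, ?_⟩ hs)
      intro k hk
      exact symm_le_landau hn x hx k hk
    refine le_antisymm (csSup_le ⟨_, x, hx, rfl⟩ ?_) (le_csSup ⟨landau n, ?_⟩ ⟨x, hx, hx2.symm⟩)
    · rintro m ⟨y, hy, rfl⟩
      exact kappaCycle_le hn y hy
    · rintro m ⟨y, hy, rfl⟩
      exact kappaCycle_le hn y hy
  refine ⟨key, ?_⟩
  rw [key]
  exact lt_landau_iff hn

end Pool.Agent.Results.MP_2ae182_co.KappaLandau
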